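import Pool.Agent.ASE.Stmts7

/-!
# Squad ASE, row GXA: the sum over the multiples
-/

open scoped BigOperators

noncomputable section

namespace Pool.Agent.PP.SE.H56

open Pool.Agent.Helper51_AWC Pool.Agent.Helper79_WRA Pool.Agent.PP Pool.Agent.PP.KF
open Pool.Agent.PP.K9 Pool.Agent.PP.K9.H97 Pool.Agent.PP.H75 Pool.Agent.PP.T3 Pool.Agent.PP.SO
open Pool.Agent.PP.SD

attribute [local instance] Ideal.Quotient.field

theorem sum_zmod {ℓ : ℕ} [Fact ℓ.Prime] (hl : ℓ ≠ 2) : ∑ s : ZMod ℓ, s = 0 := by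
  have hp : ℓ.Prime := Fact.out
  have h2 : 2 < ℓ := lt_of_le_of_ne hp.two_le (Ne.symm hl)
  have h := FiniteField.sum_pow_lt_card_sub_one (ZMod ℓ) 1 (by
    rw [ZMod.card]
    omega)
  simpa using h

theorem sum_zmod_inv {ℓ : ℕ} [Fact ℓ.Prime] (hl : ℓ ≠ 2) : ∑ s : ZMod ℓ, s⁻¹ = 0 := by
  rw [← sum_zmod hl]
  exact Equiv.sum_comp ⟨fun s : ZMod ℓ => s⁻¹, fun s => s⁻¹, inv_inv, inv_inv⟩ (fun s => s)

theorem sum_zmod_one {ℓ : ℕ} [Fact ℓ.Prime] : ∑ s : ZMod ℓ, s⁻¹ * s = -1 := by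
  classical
  have h1 : ∀ s : ZMod ℓ, s⁻¹ * s = 1 - if s = 0 then 1 else 0 := by
    intro s
    by_cases hs : s = 0
    · rw [if_pos hs, hs, mul_zero, sub_self]
    · rw [if_neg hs, sub_zero, inv_mul_cancel₀ hs]
  rw [Finset.sum_congr rfl fun s _ => h1 s, Finset.sum_sub_distrib,
    Finset.sum_ite_eq' Finset.univ (0 : ZMod ℓ), if_pos (Finset.mem_univ _), Finset.sum_const,
    Finset.card_univ, ZMod.card, nsmul_eq_mul, CharP.cast_eq_zero, zero_mul, zero_sub]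

theorem gxa : GxaStmt := by
  intro ℓ _ V Γ I _ _ _ _ _ _ ρ P Z hl e c d φ ψ
  have h1 : ∀ s : ZMod ℓ, s⁻¹ * ∑ a, Z a * (φ (P a (c + s • ρ e d)) *
      ψ (ρ e⁻¹ (P a (c + s • ρ e d)))) =
      s⁻¹ * (∑ a, Z a * (φ (P a c) * ψ (ρ e⁻¹ (P a c)))) +
      s⁻¹ * s * (∑ a, Z a * (φ (P a c) * ψ (ρ e⁻¹ (P a (ρ e d))) +
        φ (P a (ρ e d)) * ψ (ρ e⁻¹ (P a c)))) +
      s * (∑ a, Z a * (φ (P a (ρ e d)) * ψ (ρ e⁻¹ (P a (ρ e d))))) := by
    intro s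
    have h2 : ∀ a, Z a * (φ (P a (c + s • ρ e d)) * ψ (ρ e⁻¹ (P a (c + s • ρ e d)))) =
        Z a * (φ (P a c) * ψ (ρ e⁻¹ (P a c))) +
        s * (Z a * (φ (P a c) * ψ (ρ e⁻¹ (P a (ρ e d))) +
          φ (P a (ρ e d)) * ψ (ρ e⁻¹ (P a c)))) +
        s * s * (Z a * (φ (P a (ρ e d)) * ψ (ρ e⁻¹ (P a (ρ e d))))) := by
      intro a
      rw [map_add, map_smul, map_add, map_smul, map_add, map_smul, map_add, map_smul,
        smul_eq_mul, smul_eq_mul]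
      ring
    rw [Finset.sum_congr rfl fun a _ => h2 a, Finset.sum_add_distrib, Finset.sum_add_distrib,
      ← Finset.mul_sum, ← Finset.mul_sum]
    by_cases hs : s = 0
    · rw [hs]
      simp
    · have h3 : s⁻¹ * s = 1 := inv_mul_cancel₀ hs
      rw [mul_add, mul_add, ← mul_assoc, ← mul_assoc, ← mul_assoc, h3, one_mul, one_mul]
  rw [Finset.sum_congr rfl fun s _ => h1 s, Finset.sum_add_distrib, Finset.sum_add_distrib,
    ← Finset.sum_mul, ← Finset.sum_mul, ← Finset.sum_mul, sum_zmod hl, sum_zmod_inv hl,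
    sum_zmod_one]
  ring

end Pool.Agent.PP.SE.H56
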