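import Pool.Agent.ASE.Stmts5

/-!
# Squad ASE, row TS3: the terms with `pL ≠ ⊥`, `qL ≠ ⊥`
-/

open scoped BigOperators

noncomputable section

namespace Pool.Agent.PP.SE.H56

open Pool.Agent.Helper51_AWC Pool.Agent.Helper79_WRA Pool.Agent.PP Pool.Agent.PP.KF
open Pool.Agent.PP.K9 Pool.Agent.PP.K9.H97 Pool.Agent.PP.H75 Pool.Agent.PP.T3 Pool.Agent.PP.SO
open Pool.Agent.PP.SD

attribute [local instance] Ideal.Quotient.field

theorem fsf {A : Type} [Fintype A] (p : A → Prop) [DecidablePred p] (f : A → ℂ) :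
    ∑ᶠ x ∈ {x : A | p x}, f x = ∑ x ∈ Finset.univ.filter p, f x := by
  have h : ({x : A | p x} : Set A) = ((Finset.univ.filter p : Finset A) : Set A) := by
    ext x
    simp
  rw [h, finsum_mem_coe_finset]

theorem sum_fib {A Lt : Type} [Fintype A] [Fintype Lt] [DecidableEq A] (P : A → Prop)
    [DecidablePred P] (q : Lt → Prop) [DecidablePred q] (π : Lt → A) (g : A → ℂ)
    (h : A → Lt → ℂ) :
    ∑ a ∈ Finset.univ.filter P, g a * ∑ L ∈ Finset.univ.filter (fun L => π L = a ∧ q L), h a L =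
      ∑ L ∈ Finset.univ.filter q, if P (π L) then g (π L) * h (π L) L else 0 := by
  have h1 : ∀ a, g a * ∑ L ∈ Finset.univ.filter (fun L => π L = a ∧ q L), h a L =
      ∑ L ∈ Finset.univ.filter q, if π L = a then g a * h a L else 0 := by
    intro a
    rw [Finset.mul_sum, ← Finset.sum_filter, Finset.filter_filter]
    refine Finset.sum_congr ?_ fun _ _ => rfl
    ext L
    simp only [Finset.mem_filter, Finset.mem_univ, true_and]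
    exact and_comm
  rw [Finset.sum_congr rfl fun a _ => h1 a, Finset.sum_comm]
  refine Finset.sum_congr rfl fun L _ => ?_
  rw [Finset.sum_ite_eq (Finset.univ.filter P) (π L)]
  simp only [Finset.mem_filter, Finset.mem_univ, true_and]

theorem mob_sub {A : Type} [Finite A] (F F' : Set A → ℚ) (L : Set A) :
    mob (fun τ => F τ - F' τ) L = mob F L - mob F' L := by
  unfold mob
  rw [← finsum_mem_sub_distrib (hs := Set.toFinite _)]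
  refine finsum_mem_congr rfl fun T _ => ?_
  ring

theorem mob_add {A : Type} [Finite A] (F F' : Set A → ℚ) (L : Set A) :
    mob (fun τ => F τ + F' τ) L = mob F L + mob F' L := by
  unfold mob
  rw [← finsum_mem_add_distrib (hs := Set.toFinite _)]
  refine finsum_mem_congr rfl fun T _ => ?_
  ring

section lin

variable {V₀ G : Type} [CommGroup V₀] [Group G] {M : Ideal (integralClosure ℤ ℂ)} [M.IsMaximal]
  {n : ℕ}

/-- the bilinear form of the `12`-sum -/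
def Xf (B : Bk (FF M) V₀ G) (m : ℕ) (L : Set (SO.SS n V₀)) (α β : G → ℂ) : ℂ :=
  ((Nat.card (B.C (pL L)) : ℂ) * Nat.card (B.C (qL L)))⁻¹ *
    ∑ᶠ w : G × G, α w.1 * β w.2 * {z : XX w.1 w.2 | ∀ s ∈ L,
      c12 m B.i z.1.1 z.1.2.1 z.1.2.2 s.1 s.2.1 s.2.2.1 s.2.2.2}.ncard

theorem x12_eq (B : Bk (FF M) V₀ G) (m : ℕ) (L : Set (SO.SS n V₀)) (a b : Subgroup V₀ → G → ℂ) :
    X12 B m a b L = Xf B m L (a (pL L)) (b (qL L)) := rfl

variable [Finite G]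

theorem xf_add_left (B : Bk (FF M) V₀ G) (m : ℕ) (L : Set (SO.SS n V₀)) (α α' β : G → ℂ) :
    Xf B m L (fun g => α g + α' g) β = Xf B m L α β + Xf B m L α' β := by
  have := Fintype.ofFinite G
  unfold Xf
  rw [finsum_eq_sum_of_fintype, finsum_eq_sum_of_fintype, finsum_eq_sum_of_fintype, ← mul_add,
    ← Finset.sum_add_distrib]
  congr 1
  exact Finset.sum_congr rfl fun w _ => by ring

theorem xf_add_right (B : Bk (FF M) V₀ G) (m : ℕ) (L : Set (SO.SS n V₀)) (α β β' : G → ℂ) :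
    Xf B m L α (fun g => β g + β' g) = Xf B m L α β + Xf B m L α β' := by
  have := Fintype.ofFinite G
  unfold Xf
  rw [finsum_eq_sum_of_fintype, finsum_eq_sum_of_fintype, finsum_eq_sum_of_fintype, ← mul_add,
    ← Finset.sum_add_distrib]
  congr 1
  exact Finset.sum_congr rfl fun w _ => by ring

theorem xf_zero_left (B : Bk (FF M) V₀ G) (m : ℕ) (L : Set (SO.SS n V₀)) (α β : G → ℂ)
    (h : ∀ g, α g = 0) : Xf B m L α β = 0 := by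
  have := Fintype.ofFinite G
  unfold Xf
  rw [finsum_eq_sum_of_fintype, Finset.sum_eq_zero, mul_zero]
  intro w _
  rw [h, zero_mul, zero_mul]

theorem xf_zero_right (B : Bk (FF M) V₀ G) (m : ℕ) (L : Set (SO.SS n V₀)) (α β : G → ℂ)
    (h : ∀ g, β g = 0) : Xf B m L α β = 0 := by
  have := Fintype.ofFinite G
  unfold Xf
  rw [finsum_eq_sum_of_fintype, Finset.sum_eq_zero, mul_zero]
  intro w _
  rw [h, mul_zero, zero_mul]

end lin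

theorem el_map {V₀ : Type} [CommGroup V₀] {n : ℕ} {L : Set (SO.SS n V₀)} {σ : MulAut V₀} (h : ∀ s ∈ L, σ s.2.2.2 = s.2.2.1) :
    mp σ (qL L) = pL L := by
  unfold mp qL pL
  rw [MonoidHom.map_closure]
  congr 1
  ext x
  constructor
  · rintro ⟨y, ⟨s, hs, rfl⟩, rfl⟩
    exact ⟨s, hs, (h s hs).symm⟩
  · rintro ⟨s, hs, rfl⟩
    exact ⟨s.2.2.2, ⟨s, hs, rfl⟩, h s hs⟩

open Classical in
/-- the terms of one `L` -/
theorem ts3_term (x2c : X2cStmt) (x2r : X2rStmt) (lfm : LfmStmt) (fmb : FmbStmt)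
    (prb : PrbStmt) (mpb : MpbStmt)
    (ℓ : ℕ) [Fact ℓ.Prime] (M : Ideal (integralClosure ℤ ℂ)) [M.IsMaximal]
    (hM : (ℓ : integralClosure ℤ ℂ) ∈ M) (hl2 : ℓ ≠ 2) (V₀ G : Type) [CommGroup V₀] [Finite V₀]
    [Group G] [Finite G] [Fintype (Subgroup V₀)] [Fintype (MulAut V₀)] (E₀ : Subgroup (MulAut V₀)) (hq : Fq ℓ V₀ E₀) (B : Bk (FF M) V₀ G)
    (hB : Sb ℓ M E₀ B) (D : Rd V₀ G) (hD : Rs ℓ E₀ B D) (n m : ℕ) (hP : PE ℓ n m G)
    (c d : V₀) (hc : c ≠ 1) (hd : d ≠ 1) (L : Set (SO.SS n V₀)) (hp : pL L ≠ ⊥) (hqL : qL L ≠ ⊥)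
    (m00 : ℂ) (m10 m01 : V₀ → ℂ) (m11 : V₀ → V₀ → ℂ) :
    m00 * X12 B m (mnl E₀ B c) (mnl E₀ B d) L -
      (∑ a ∈ Finset.univ.filter (fun a : Subgroup V₀ => a ∈ RL ℓ E₀ ∧ c ∉ a),
        m10 (pr ℓ E₀ a c) * X12 B m (etl B D a (pr ℓ E₀ a c)) (mnl E₀ B d) L) -
      (∑ b ∈ Finset.univ.filter (fun a : Subgroup V₀ => a ∈ RL ℓ E₀ ∧ d ∉ a),
        m01 (pr ℓ E₀ b d) * X12 B m (mnl E₀ B c) (etl B D b (pr ℓ E₀ b d)) L) +
      (∑ a ∈ Finset.univ.filter (fun a : Subgroup V₀ => a ∈ RL ℓ E₀ ∧ c ∉ a),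
        ∑ b ∈ Finset.univ.filter (fun a : Subgroup V₀ => a ∈ RL ℓ E₀ ∧ d ∉ a),
          m11 (pr ℓ E₀ a c) (pr ℓ E₀ b d) *
            X12 B m (etl B D a (pr ℓ E₀ a c)) (etl B D b (pr ℓ E₀ b d)) L) =
    ∑ σ ∈ Finset.univ.filter (fun σ : MulAut V₀ => σ ∈ E₀ ∧ ∀ s ∈ L, σ s.2.2.2 = s.2.2.1),
      (((cS D.U c d σ (pL L) : ℚ) : ℂ) * m00 *
          HX B m (pL L) (fm ℓ E₀ B D (pL L) (c * σ d)) L +
        (if pL L ∈ RL ℓ E₀ ∧ c ∉ pL L then ((ux D.U (pL L) (σ d) : ℚ) : ℂ) *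
          ((m00 - m10 (pr ℓ E₀ (pL L) c)) *
            HX B m (pL L) (tk B (pr ℓ E₀ (pL L) (c * σ d)) (D.et (pL L))) L) else 0) +
        (if pL L ∈ RL ℓ E₀ ∧ σ d ∉ pL L then ((ux D.U (pL L) c : ℚ) : ℂ) *
          ((m00 - m01 (σ⁻¹ (pr ℓ E₀ (pL L) (σ d)))) *
            HX B m (pL L) (tk B (pr ℓ E₀ (pL L) (c * σ d)) (D.et (pL L))) L) else 0) +
        (if pL L ∈ RL ℓ E₀ ∧ c ∉ pL L ∧ σ d ∉ pL L then (nS E₀ (pL L) : ℂ)⁻¹ *
          ((m00 - m10 (pr ℓ E₀ (pL L) c) - m01 (σ⁻¹ (pr ℓ E₀ (pL L) (σ d))) +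
              m11 (pr ℓ E₀ (pL L) c) (σ⁻¹ (pr ℓ E₀ (pL L) (σ d)))) *
            HX B m (pL L) (tk B (pr ℓ E₀ (pL L) (c * σ d))
              (fun g => mulF (D.et (pL L)) (D.et (pL L)) g)) L) else 0)) := by
  obtain ⟨W, hW⟩ : ∃ W : Subgroup V₀, W = pL L := ⟨_, rfl⟩
  obtain ⟨W', hW'⟩ : ∃ W' : Subgroup V₀, W' = qL L := ⟨_, rfl⟩
  -- the labels
  obtain ⟨a1, a2, a3⟩ := lfm ℓ M hM V₀ G E₀ hq B hB D hD c hc W (hW ▸ hp)
  obtain ⟨b1, b2, b3⟩ := lfm ℓ M hM V₀ G E₀ hq B hB D hD d hd W' (hW' ▸ hqL)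
  obtain ⟨X00, h00⟩ : ∃ x, x = Xf B m L (fm ℓ E₀ B D W c) (fm ℓ E₀ B D W' d) := ⟨_, rfl⟩
  obtain ⟨X10, h10⟩ : ∃ x, x = Xf B m L (tk B (pr ℓ E₀ W c) (D.et W)) (fm ℓ E₀ B D W' d) :=
    ⟨_, rfl⟩
  obtain ⟨X01, h01⟩ : ∃ x, x = Xf B m L (fm ℓ E₀ B D W c) (tk B (pr ℓ E₀ W' d) (D.et W')) :=
    ⟨_, rfl⟩
  obtain ⟨X11, h11⟩ : ∃ x, x = Xf B m L (tk B (pr ℓ E₀ W c) (D.et W))
    (tk B (pr ℓ E₀ W' d) (D.et W')) := ⟨_, rfl⟩
  have hm1 : (W ∈ RL ℓ E₀ ∧ c ∉ W) → ∀ β, Xf B m L (mnl E₀ B c W) β =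
      Xf B m L (fm ℓ E₀ B D W c) β + Xf B m L (tk B (pr ℓ E₀ W c) (D.et W)) β := by
    intro h β
    rw [← xf_add_left, funext (a1 h)]
  have hm2 : ¬ (W ∈ RL ℓ E₀ ∧ c ∉ W) → mnl E₀ B c W = fm ℓ E₀ B D W c := fun h =>
    funext (a2 h)
  have hn1 : (W' ∈ RL ℓ E₀ ∧ d ∉ W') → ∀ α, Xf B m L α (mnl E₀ B d W') =
      Xf B m L α (fm ℓ E₀ B D W' d) + Xf B m L α (tk B (pr ℓ E₀ W' d) (D.et W')) := by
    intro h α
    rw [← xf_add_right, funext (b1 h)]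
  have hn2 : ¬ (W' ∈ RL ℓ E₀ ∧ d ∉ W') → mnl E₀ B d W' = fm ℓ E₀ B D W' d := fun h =>
    funext (b2 h)
  have hea : ∀ κ, etl B D W κ W = tk B κ (D.et W) := fun κ => funext fun g => (a3 W κ g).1 rfl
  have heb : ∀ κ, etl B D W' κ W' = tk B κ (D.et W') := fun κ =>
    funext fun g => (b3 W' κ g).1 rfl
  -- the sums
  have s1 : ∑ a ∈ Finset.univ.filter (fun a : Subgroup V₀ => a ∈ RL ℓ E₀ ∧ c ∉ a),
      m10 (pr ℓ E₀ a c) * X12 B m (etl B D a (pr ℓ E₀ a c)) (mnl E₀ B d) L =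
      if W ∈ RL ℓ E₀ ∧ c ∉ W then m10 (pr ℓ E₀ W c) *
        Xf B m L (tk B (pr ℓ E₀ W c) (D.et W)) (mnl E₀ B d W') else 0 := by
    have hz : ∀ a, a ≠ W → m10 (pr ℓ E₀ a c) *
        X12 B m (etl B D a (pr ℓ E₀ a c)) (mnl E₀ B d) L = 0 := by
      intro a ha
      rw [x12_eq, ← hW, xf_zero_left B m L _ _ (fun g => (a3 a _ g).2 (Ne.symm ha)), mul_zero]
    by_cases h : W ∈ RL ℓ E₀ ∧ c ∉ W
    · rw [Finset.sum_eq_single W (fun a _ ha => hz a ha), if_pos h, x12_eq, ← hW, ← hW',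
        hea]
      intro h1
      exact absurd (Finset.mem_filter.2 ⟨Finset.mem_univ W, h⟩) h1
    · rw [if_neg h, Finset.sum_eq_zero]
      intro a ha
      refine hz a fun h1 => h ?_
      rw [h1] at ha
      exact (Finset.mem_filter.1 ha).2
  have s2 : ∀ (mm : V₀ → ℂ) (α : Subgroup V₀ → G → ℂ),
      ∑ b ∈ Finset.univ.filter (fun a : Subgroup V₀ => a ∈ RL ℓ E₀ ∧ d ∉ a),
      mm (pr ℓ E₀ b d) * X12 B m α (etl B D b (pr ℓ E₀ b d)) L =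
      if W' ∈ RL ℓ E₀ ∧ d ∉ W' then mm (pr ℓ E₀ W' d) *
        Xf B m L (α W) (tk B (pr ℓ E₀ W' d) (D.et W')) else 0 := by
    intro mm α
    have hz : ∀ a, a ≠ W' → mm (pr ℓ E₀ a d) *
        X12 B m α (etl B D a (pr ℓ E₀ a d)) L = 0 := by
      intro a ha
      rw [x12_eq, ← hW', xf_zero_right B m L _ _ (fun g => (b3 a _ g).2 (Ne.symm ha)), mul_zero]
    by_cases h : W' ∈ RL ℓ E₀ ∧ d ∉ W'
    · rw [Finset.sum_eq_single W' (fun a _ ha => hz a ha), if_pos h, x12_eq, ← hW, ← hW',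
        heb]
      intro h1
      exact absurd (Finset.mem_filter.2 ⟨Finset.mem_univ W', h⟩) h1
    · rw [if_neg h, Finset.sum_eq_zero]
      intro a ha
      refine hz a fun h1 => h ?_
      rw [h1] at ha
      exact (Finset.mem_filter.1 ha).2
  -- the left side
  have hl : m00 * X12 B m (mnl E₀ B c) (mnl E₀ B d) L -
      (∑ a ∈ Finset.univ.filter (fun a : Subgroup V₀ => a ∈ RL ℓ E₀ ∧ c ∉ a),
        m10 (pr ℓ E₀ a c) * X12 B m (etl B D a (pr ℓ E₀ a c)) (mnl E₀ B d) L) -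
      (∑ b ∈ Finset.univ.filter (fun a : Subgroup V₀ => a ∈ RL ℓ E₀ ∧ d ∉ a),
        m01 (pr ℓ E₀ b d) * X12 B m (mnl E₀ B c) (etl B D b (pr ℓ E₀ b d)) L) +
      (∑ a ∈ Finset.univ.filter (fun a : Subgroup V₀ => a ∈ RL ℓ E₀ ∧ c ∉ a),
        ∑ b ∈ Finset.univ.filter (fun a : Subgroup V₀ => a ∈ RL ℓ E₀ ∧ d ∉ a),
          m11 (pr ℓ E₀ a c) (pr ℓ E₀ b d) *
            X12 B m (etl B D a (pr ℓ E₀ a c)) (etl B D b (pr ℓ E₀ b d)) L) =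
      m00 * X00 + (if W ∈ RL ℓ E₀ ∧ c ∉ W then (m00 - m10 (pr ℓ E₀ W c)) * X10 else 0) +
      (if W' ∈ RL ℓ E₀ ∧ d ∉ W' then (m00 - m01 (pr ℓ E₀ W' d)) * X01 else 0) +
      (if (W ∈ RL ℓ E₀ ∧ c ∉ W) ∧ (W' ∈ RL ℓ E₀ ∧ d ∉ W') then
        (m00 - m10 (pr ℓ E₀ W c) - m01 (pr ℓ E₀ W' d) +
          m11 (pr ℓ E₀ W c) (pr ℓ E₀ W' d)) * X11 else 0) := by
    rw [s1, s2 m01 (mnl E₀ B c)]
    have s3 : ∑ a ∈ Finset.univ.filter (fun a : Subgroup V₀ => a ∈ RL ℓ E₀ ∧ c ∉ a),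
        ∑ b ∈ Finset.univ.filter (fun a : Subgroup V₀ => a ∈ RL ℓ E₀ ∧ d ∉ a),
          m11 (pr ℓ E₀ a c) (pr ℓ E₀ b d) *
            X12 B m (etl B D a (pr ℓ E₀ a c)) (etl B D b (pr ℓ E₀ b d)) L =
        if (W ∈ RL ℓ E₀ ∧ c ∉ W) ∧ (W' ∈ RL ℓ E₀ ∧ d ∉ W') then
          m11 (pr ℓ E₀ W c) (pr ℓ E₀ W' d) * X11 else 0 := by
      rw [Finset.sum_congr rfl fun a _ => s2 (m11 (pr ℓ E₀ a c)) (etl B D a (pr ℓ E₀ a c))]
      by_cases h' : W' ∈ RL ℓ E₀ ∧ d ∉ W'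
      · simp only [if_pos h']
        by_cases h : W ∈ RL ℓ E₀ ∧ c ∉ W
        · rw [Finset.sum_eq_single W, if_pos ⟨h, h'⟩, hea, h11]
          · intro a _ ha
            rw [xf_zero_left B m L _ _ (fun g => (a3 a _ g).2 (Ne.symm ha)), mul_zero]
          · intro h1
            exact absurd (Finset.mem_filter.2 ⟨Finset.mem_univ W, h⟩) h1
        · rw [if_neg (fun h1 => h h1.1), Finset.sum_eq_zero]
          intro a ha
          have h2 : a ≠ W := by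
            intro h1
            apply h
            rw [h1] at ha
            exact (Finset.mem_filter.1 ha).2
          rw [xf_zero_left B m L _ _ (fun g => (a3 a _ g).2 (Ne.symm h2)), mul_zero]
      · simp only [if_neg h', Finset.sum_const_zero]
        rw [if_neg (fun h1 => h' h1.2)]
    rw [s3, x12_eq, ← hW, ← hW']
    by_cases h : W ∈ RL ℓ E₀ ∧ c ∉ W
    · by_cases h' : W' ∈ RL ℓ E₀ ∧ d ∉ W'
      · rw [if_pos h, if_pos h', if_pos h, if_pos h', if_pos ⟨h, h'⟩, if_pos ⟨h, h'⟩,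
          hm1 h, hn1 h', hn1 h', hm1 h, ← h00, ← h10, ← h01, ← h11]
        ring
      · rw [if_pos h, if_neg h', if_pos h, if_neg h', if_neg (fun h1 => h' h1.2),
          if_neg (fun h1 => h' h1.2), hm1 h, hn2 h', ← h00, ← h10]
        ring
    · by_cases h' : W' ∈ RL ℓ E₀ ∧ d ∉ W'
      · rw [if_neg h, if_pos h', if_neg h, if_pos h', if_neg (fun h1 => h h1.1),
          if_neg (fun h1 => h h1.1), hm2 h, hn1 h', ← h00, ← h01]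
        ring
      · rw [if_neg h, if_neg h', if_neg h, if_neg h', if_neg (fun h1 => h h1.1),
          if_neg (fun h1 => h h1.1), hm2 h, hn2 h', ← h00]
        ring
  rw [hl, ← hW]
  obtain ⟨p1, p2, p3, p4, p5, p6, p7, p8, p9, p10⟩ := prb ℓ V₀ E₀ hq W
  obtain ⟨q1, q2, q3, q4, q5, q6, q7, q8, q9, q10⟩ := prb ℓ V₀ E₀ hq W'
  have hWW : ∀ σ : MulAut V₀, (∀ s ∈ L, σ s.2.2.2 = s.2.2.1) → mp σ W' = W := by
    intro σ hσ
    rw [hW, hW']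
    exact el_map hσ
  have hRR : ∀ σ ∈ E₀, (∀ s ∈ L, σ s.2.2.2 = s.2.2.1) → (W ∈ RL ℓ E₀ ↔ W' ∈ RL ℓ E₀) := by
    intro σ hσE hσ
    have h1 := hWW σ hσ
    have h2 := (mpb V₀ σ 1 W' W').2.2.1
    have h3 := (q4 σ hσE).1
    rw [h1] at h2 h3
    unfold RL
    rw [Set.mem_setOf_eq, Set.mem_setOf_eq, h2, h3]
  have hdd : ∀ σ : MulAut V₀, (∀ s ∈ L, σ s.2.2.2 = s.2.2.1) → (σ d ∉ W ↔ d ∉ W') := by
    intro σ hσ
    have h1 := (mpb V₀ σ 1 W' W').2.2.2.2.1 d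
    rw [hWW σ hσ] at h1
    rw [h1]
  have hpp : ∀ σ ∈ E₀, (∀ s ∈ L, σ s.2.2.2 = s.2.2.1) →
      σ⁻¹ (pr ℓ E₀ W (σ d)) = pr ℓ E₀ W' d := by
    intro σ hσE hσ
    have h1 := (q4 σ hσE).2 d
    rw [hWW σ hσ] at h1
    rw [h1, MulAut.inv_apply_self]
  have hfilt : ∀ f : MulAut V₀ → ℂ, ∑ᶠ σ ∈ EL E₀ L, f σ =
      ∑ σ ∈ Finset.univ.filter (fun σ : MulAut V₀ => σ ∈ E₀ ∧ ∀ s ∈ L, σ s.2.2.2 = s.2.2.1),
        f σ := fun f => fsf (fun σ : MulAut V₀ => σ ∈ E₀ ∧ ∀ s ∈ L, σ s.2.2.2 = s.2.2.1) f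
  by_cases hE : ∃ σ ∈ E₀, ∀ s ∈ L, σ s.2.2.2 = s.2.2.1
  · obtain ⟨σ₀, hσ₀E, hσ₀⟩ := hE
    have hRR₀ := hRR σ₀ hσ₀E hσ₀
    obtain ⟨x1, x2⟩ := x2r ℓ M hM hl2 V₀ G E₀ hq B hB D hD n m hP c d L hp
    rw [x12_eq, ← hW, ← hW', ← h00, hfilt] at x1
    have hB10 : W ∈ RL ℓ E₀ → X10 = ∑ σ ∈ Finset.univ.filter
        (fun σ : MulAut V₀ => σ ∈ E₀ ∧ ∀ s ∈ L, σ s.2.2.2 = s.2.2.1),
        ((ux D.U W (σ d) : ℚ) : ℂ) *
          HX B m W (tk B (pr ℓ E₀ W (c * σ d)) (D.et W)) L := by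
      intro h
      have h1 := (x2 (hW ▸ h)).1
      rw [x12_eq, ← hW, ← hW', ← h10, hfilt] at h1
      exact h1
    have hB01 : W ∈ RL ℓ E₀ → X01 = ∑ σ ∈ Finset.univ.filter
        (fun σ : MulAut V₀ => σ ∈ E₀ ∧ ∀ s ∈ L, σ s.2.2.2 = s.2.2.1),
        ((ux D.U W c : ℚ) : ℂ) *
          HX B m W (tk B (pr ℓ E₀ W (c * σ d)) (D.et W)) L := by
      intro h
      have h1 := (x2 (hW ▸ h)).2.1
      rw [x12_eq, ← hW, ← hW', ← h01, hfilt] at h1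
      exact h1
    have hB11 : W ∈ RL ℓ E₀ → X11 = (nS E₀ W : ℂ)⁻¹ * ∑ σ ∈ Finset.univ.filter
        (fun σ : MulAut V₀ => σ ∈ E₀ ∧ ∀ s ∈ L, σ s.2.2.2 = s.2.2.1),
          HX B m W (tk B (pr ℓ E₀ W (c * σ d))
            (fun g => mulF (D.et W) (D.et W) g)) L := by
      intro h
      have h1 := (x2 (hW ▸ h)).2.2
      rw [x12_eq, ← hW, ← hW', ← h11, hfilt] at h1
      exact h1
    rw [Finset.sum_add_distrib, Finset.sum_add_distrib, Finset.sum_add_distrib]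
    congr 1
    · congr 1
      · congr 1
        · rw [x1, Finset.mul_sum]
          refine Finset.sum_congr rfl fun σ _ => ?_
          ring
        · by_cases h : W ∈ RL ℓ E₀ ∧ c ∉ W
          · simp only [if_pos h]
            rw [hB10 h.1, Finset.mul_sum]
            refine Finset.sum_congr rfl fun σ _ => ?_
            ring
          · simp only [if_neg h, Finset.sum_const_zero]
      · by_cases h : W' ∈ RL ℓ E₀ ∧ d ∉ W'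
        · rw [if_pos h, hB01 (hRR₀.2 h.1), Finset.mul_sum]
          refine Finset.sum_congr rfl fun σ hσ => ?_
          obtain ⟨_, hσE, hσ1⟩ := Finset.mem_filter.1 hσ
          rw [if_pos ⟨hRR₀.2 h.1, (hdd σ hσ1).2 h.2⟩, hpp σ hσE hσ1]
          ring
        · rw [if_neg h, Finset.sum_eq_zero]
          intro σ hσ
          obtain ⟨_, hσE, hσ1⟩ := Finset.mem_filter.1 hσ
          rw [if_neg (fun h1 => h ⟨hRR₀.1 h1.1, (hdd σ hσ1).1 h1.2⟩)]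
    · by_cases h : (W ∈ RL ℓ E₀ ∧ c ∉ W) ∧ (W' ∈ RL ℓ E₀ ∧ d ∉ W')
      · rw [if_pos h, hB11 h.1.1, mul_left_comm, Finset.mul_sum, Finset.mul_sum]
        refine Finset.sum_congr rfl fun σ hσ => ?_
        obtain ⟨_, hσE, hσ1⟩ := Finset.mem_filter.1 hσ
        rw [if_pos ⟨h.1.1, h.1.2, (hdd σ hσ1).2 h.2.2⟩, hpp σ hσE hσ1]
      · rw [if_neg h, Finset.sum_eq_zero]
        intro σ hσ
        obtain ⟨_, hσE, hσ1⟩ := Finset.mem_filter.1 hσ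
        rw [if_neg (fun h1 => h ⟨⟨h1.1, h1.2.1⟩, ⟨hRR₀.1 h1.1, (hdd σ hσ1).1 h1.2.2⟩⟩)]
  · have hem : Finset.univ.filter
        (fun σ : MulAut V₀ => σ ∈ E₀ ∧ ∀ s ∈ L, σ s.2.2.2 = s.2.2.1) = ∅ := by
      rw [Finset.filter_eq_empty_iff]
      intro σ _ h
      exact hE ⟨σ, h.1, h.2⟩
    rw [hem, Finset.sum_empty]
    have hzero : ∀ α β, Cz B W α → Cz B W' β → Xf B m L α β = 0 := by
      intro α β hα hβ
      rw [hW] at hα
      rw [hW'] at hβ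
      have h1 := (x2c ℓ M hM hl2 V₀ G E₀ hq B hB n m hP L (fun _ => α) (fun _ => β)).2 hα hβ hp
      rw [x12_eq, hfilt, hem, Finset.sum_empty, mul_zero] at h1
      exact h1
    obtain ⟨f1, _, f3, _⟩ := fmb ℓ M hM hl2 V₀ G E₀ hq B hB D hD W (hW ▸ hp)
    obtain ⟨g1, _, g3, _⟩ := fmb ℓ M hM hl2 V₀ G E₀ hq B hB D hD W' (hW' ▸ hqL)
    rw [h00, hzero _ _ (f1 c) (g1 d), mul_zero, zero_add]
    by_cases h : W ∈ RL ℓ E₀ ∧ c ∉ W
    · have hc1 : Cz B W (tk B (pr ℓ E₀ W c) (D.et W)) := (f3 _ (p5 h.1 c)).1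
      rw [if_pos h, h10, hzero _ _ hc1 (g1 d), mul_zero, zero_add]
      by_cases h' : W' ∈ RL ℓ E₀ ∧ d ∉ W'
      · have hd1 : Cz B W' (tk B (pr ℓ E₀ W' d) (D.et W')) := (g3 _ (q5 h'.1 d)).1
        rw [if_pos h', h01, hzero _ _ (f1 c) hd1, mul_zero, zero_add, if_pos ⟨h, h'⟩, h11,
          hzero _ _ hc1 hd1, mul_zero]
      · rw [if_neg h', if_neg (fun h1 => h' h1.2), add_zero]
    · have hn : ¬ ((W ∈ RL ℓ E₀ ∧ c ∉ W) ∧ (W' ∈ RL ℓ E₀ ∧ d ∉ W')) := fun h1 => h h1.1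
      rw [if_neg h, if_neg hn, zero_add, add_zero]
      by_cases h' : W' ∈ RL ℓ E₀ ∧ d ∉ W'
      · have hd1 : Cz B W' (tk B (pr ℓ E₀ W' d) (D.et W')) := (g3 _ (q5 h'.1 d)).1
        rw [if_pos h', h01, hzero _ _ (f1 c) hd1, mul_zero]
      · rw [if_neg h']

theorem ts3 (x2c : X2cStmt) (x2r : X2rStmt) (lfm : LfmStmt) (fmb : FmbStmt)
    (prb : PrbStmt) (mpb : MpbStmt) : Ts3Stmt := by
  classical
  intro ℓ _ M _ hM hl2 V₀ G _ _ _ _ E₀ hq B hB D hD n m hP F c d hc hd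
  have i1 : Fintype V₀ := Fintype.ofFinite V₀
  have i2 : Fintype (Subgroup V₀) := Fintype.ofFinite _
  have i3 : Fintype (MulAut V₀) := Fintype.ofFinite _
  have i4 : Fintype (Set (SO.SS n V₀)) := Fintype.ofFinite _
  have hbot : (⊥ : Subgroup V₀) ∉ RL ℓ E₀ := by
    intro h
    have h1 : Nat.card (⊥ : Subgroup V₀) = ℓ := h.1
    rw [Subgroup.card_bot] at h1
    exact (Fact.out : ℓ.Prime).one_lt.ne h1
  -- the left side
  have hX : ∀ (α β : Subgroup V₀ → G → ℂ) (Φ : Set (SO.SS n V₀) → ℚ), X2N B m α β Φ =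
      ∑ L ∈ Finset.univ.filter (fun L : Set (SO.SS n V₀) => pL L ≠ ⊥ ∧ qL L ≠ ⊥),
        ((mob Φ L : ℚ) : ℂ) * X12 B m α β L := fun α β Φ => fsf _ _
  have hFW : ∀ (σ : MulAut V₀) (a : Subgroup V₀) (Φ : Set (SO.SS n V₀) → ℚ) (z : G → ℂ),
      FWS B m σ a Φ z = ∑ L ∈ Finset.univ.filter
        (fun L : Set (SO.SS n V₀) => pL L = a ∧ ∀ s ∈ L, σ s.2.2.2 = s.2.2.1),
        ((mob Φ L : ℚ) : ℂ) * HX B m a z L := fun σ a Φ z => fsf _ _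
  have hT0 : ∀ σ : MulAut V₀, T0S ℓ E₀ B D m c d σ (F c d) = ∑ L ∈ Finset.univ.filter
      (fun L : Set (SO.SS n V₀) => pL L ≠ ⊥ ∧ ∀ s ∈ L, σ s.2.2.2 = s.2.2.1),
      ((cS D.U c d σ (pL L) * mob (F c d) L : ℚ) : ℂ) *
        HX B m (pL L) (fm ℓ E₀ B D (pL L) (c * σ d)) L := fun σ => fsf _ _
  have e1 : ∀ (f : Subgroup V₀ → Set (SO.SS n V₀) → ℂ) (S : Finset (Subgroup V₀)),
      ∑ x ∈ S, ∑ L ∈ Finset.univ.filter (fun L : Set (SO.SS n V₀) => pL L ≠ ⊥ ∧ qL L ≠ ⊥),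
        f x L = ∑ L ∈ Finset.univ.filter (fun L : Set (SO.SS n V₀) => pL L ≠ ⊥ ∧ qL L ≠ ⊥),
        ∑ x ∈ S, f x L := fun f S => Finset.sum_comm
  -- the right side
  obtain ⟨R, hR⟩ : ∃ R : MulAut V₀ → Set (SO.SS n V₀) → ℂ, ∀ σ L, R σ L =
      (if pL L ≠ ⊥ then ((cS D.U c d σ (pL L) * mob (F c d) L : ℚ) : ℂ) *
        HX B m (pL L) (fm ℓ E₀ B D (pL L) (c * σ d)) L else 0) +
      (if pL L ∈ RL ℓ E₀ ∧ c ∉ pL L then ((ux D.U (pL L) (σ d) : ℚ) : ℂ) *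
        (((mob (fun τ => F c d τ - F (pr ℓ E₀ (pL L) c) d τ) L : ℚ) : ℂ) *
          HX B m (pL L) (tk B (pr ℓ E₀ (pL L) (c * σ d)) (D.et (pL L))) L) else 0) +
      (if pL L ∈ RL ℓ E₀ ∧ σ d ∉ pL L then ((ux D.U (pL L) c : ℚ) : ℂ) *
        (((mob (fun τ => F c d τ - F c (σ⁻¹ (pr ℓ E₀ (pL L) (σ d))) τ) L : ℚ) : ℂ) *
          HX B m (pL L) (tk B (pr ℓ E₀ (pL L) (c * σ d)) (D.et (pL L))) L) else 0) +
      (if pL L ∈ RL ℓ E₀ ∧ c ∉ pL L ∧ σ d ∉ pL L then (nS E₀ (pL L) : ℂ)⁻¹ *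
        (((mob (fun τ => F c d τ - F (pr ℓ E₀ (pL L) c) d τ -
            F c (σ⁻¹ (pr ℓ E₀ (pL L) (σ d))) τ +
            F (pr ℓ E₀ (pL L) c) (σ⁻¹ (pr ℓ E₀ (pL L) (σ d))) τ) L : ℚ) : ℂ) *
          HX B m (pL L) (tk B (pr ℓ E₀ (pL L) (c * σ d))
            (fun g => mulF (D.et (pL L)) (D.et (pL L)) g)) L) else 0) :=
    ⟨fun σ L => _, fun _ _ => rfl⟩
  have hin : ∀ σ : MulAut V₀, (T0S ℓ E₀ B D m c d σ (F c d) +
      (∑ᶠ a ∈ {a : Subgroup V₀ | a ∈ RL ℓ E₀ ∧ c ∉ a}, (ux D.U a (σ d) : ℚ) *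
        FWS B m σ a (fun τ => F c d τ - F (pr ℓ E₀ a c) d τ)
          (tk B (pr ℓ E₀ a (c * σ d)) (D.et a))) +
      (∑ᶠ a ∈ {a : Subgroup V₀ | a ∈ RL ℓ E₀ ∧ σ d ∉ a}, (ux D.U a c : ℚ) *
        FWS B m σ a (fun τ => F c d τ - F c (σ⁻¹ (pr ℓ E₀ a (σ d))) τ)
          (tk B (pr ℓ E₀ a (c * σ d)) (D.et a))) +
      ∑ᶠ a ∈ {a : Subgroup V₀ | a ∈ RL ℓ E₀ ∧ c ∉ a ∧ σ d ∉ a}, (nS E₀ a : ℂ)⁻¹ *
        FWS B m σ a (fun τ => F c d τ - F (pr ℓ E₀ a c) d τ - F c (σ⁻¹ (pr ℓ E₀ a (σ d))) τ +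
          F (pr ℓ E₀ a c) (σ⁻¹ (pr ℓ E₀ a (σ d))) τ)
          (tk B (pr ℓ E₀ a (c * σ d)) (fun g => mulF (D.et a) (D.et a) g))) =
      ∑ L ∈ Finset.univ.filter (fun L : Set (SO.SS n V₀) => ∀ s ∈ L, σ s.2.2.2 = s.2.2.1),
        R σ L := by
    intro σ
    simp only [hFW, hT0, fsf, hR]
    rw [Finset.sum_add_distrib, Finset.sum_add_distrib, Finset.sum_add_distrib]
    congr 1
    · congr 1
      · congr 1
        · rw [← Finset.sum_filter, Finset.filter_filter]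
          refine Finset.sum_congr ?_ fun _ _ => rfl
          ext L
          simp only [Finset.mem_filter, Finset.mem_univ, true_and]
          exact and_comm
        · exact sum_fib (fun a : Subgroup V₀ => a ∈ RL ℓ E₀ ∧ c ∉ a)
            (fun L : Set (SO.SS n V₀) => ∀ s ∈ L, σ s.2.2.2 = s.2.2.1) pL
            (fun a => ((ux D.U a (σ d) : ℚ) : ℂ))
            (fun a L => ((mob (fun τ => F c d τ - F (pr ℓ E₀ a c) d τ) L : ℚ) : ℂ) *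
              HX B m a (tk B (pr ℓ E₀ a (c * σ d)) (D.et a)) L)
      · exact sum_fib (fun a : Subgroup V₀ => a ∈ RL ℓ E₀ ∧ σ d ∉ a)
            (fun L : Set (SO.SS n V₀) => ∀ s ∈ L, σ s.2.2.2 = s.2.2.1) pL
            (fun a => ((ux D.U a c : ℚ) : ℂ))
            (fun a L => ((mob (fun τ => F c d τ - F c (σ⁻¹ (pr ℓ E₀ a (σ d))) τ) L : ℚ) : ℂ) *
              HX B m a (tk B (pr ℓ E₀ a (c * σ d)) (D.et a)) L)
    · exact sum_fib (fun a : Subgroup V₀ => a ∈ RL ℓ E₀ ∧ c ∉ a ∧ σ d ∉ a)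
            (fun L : Set (SO.SS n V₀) => ∀ s ∈ L, σ s.2.2.2 = s.2.2.1) pL
            (fun a => (nS E₀ a : ℂ)⁻¹)
            (fun a L => ((mob (fun τ => F c d τ - F (pr ℓ E₀ a c) d τ -
              F c (σ⁻¹ (pr ℓ E₀ a (σ d))) τ +
              F (pr ℓ E₀ a c) (σ⁻¹ (pr ℓ E₀ a (σ d))) τ) L : ℚ) : ℂ) *
              HX B m a (tk B (pr ℓ E₀ a (c * σ d)) (fun g => mulF (D.et a) (D.et a) g)) L)
  rw [fsf (fun σ : MulAut V₀ => σ ∈ E₀), Finset.sum_congr rfl fun σ _ => hin σ]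
  rw [Finset.sum_comm' (t' := Finset.univ)
    (s' := fun L => Finset.univ.filter
      (fun σ : MulAut V₀ => σ ∈ E₀ ∧ ∀ s ∈ L, σ s.2.2.2 = s.2.2.1)) (by
    intro σ L
    simp only [Finset.mem_filter, Finset.mem_univ, true_and, and_true])]
  simp only [hX, fsf]
  simp only [e1]
  rw [← Finset.sum_sub_distrib, ← Finset.sum_sub_distrib, ← Finset.sum_add_distrib]
  rw [← Finset.sum_subset (Finset.filter_subset
    (fun L : Set (SO.SS n V₀) => pL L ≠ ⊥ ∧ qL L ≠ ⊥) Finset.univ)]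
  · refine Finset.sum_congr rfl fun L hL => ?_
    obtain ⟨_, hp, hqL⟩ := Finset.mem_filter.1 hL
    have h1 := ts3_term x2c x2r lfm fmb prb mpb ℓ M hM hl2 V₀ G E₀ hq B hB D hD n m hP c d hc hd
      L hp hqL ((mob (F c d) L : ℚ) : ℂ) (fun κ => ((mob (F κ d) L : ℚ) : ℂ))
      (fun κ => ((mob (F c κ) L : ℚ) : ℂ)) (fun κ κ' => ((mob (F κ κ') L : ℚ) : ℂ))
    rw [h1]
    refine Finset.sum_congr (by
      ext σ
      simp only [Finset.mem_filter, Finset.mem_univ, true_and]) fun σ _ => ?_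
    rw [hR, if_pos hp]
    have h2 : mob (fun τ => F c d τ - F (pr ℓ E₀ (pL L) c) d τ) L =
        mob (F c d) L - mob (F (pr ℓ E₀ (pL L) c) d) L := mob_sub _ _ L
    have h3 : mob (fun τ => F c d τ - F c (σ⁻¹ (pr ℓ E₀ (pL L) (σ d))) τ) L =
        mob (F c d) L - mob (F c (σ⁻¹ (pr ℓ E₀ (pL L) (σ d)))) L := mob_sub _ _ L
    have h4 : mob (fun τ => F c d τ - F (pr ℓ E₀ (pL L) c) d τ -
        F c (σ⁻¹ (pr ℓ E₀ (pL L) (σ d))) τ +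
        F (pr ℓ E₀ (pL L) c) (σ⁻¹ (pr ℓ E₀ (pL L) (σ d))) τ) L =
        mob (F c d) L - mob (F (pr ℓ E₀ (pL L) c) d) L -
          mob (F c (σ⁻¹ (pr ℓ E₀ (pL L) (σ d)))) L +
          mob (F (pr ℓ E₀ (pL L) c) (σ⁻¹ (pr ℓ E₀ (pL L) (σ d)))) L := by
      rw [mob_add (fun τ => F c d τ - F (pr ℓ E₀ (pL L) c) d τ -
        F c (σ⁻¹ (pr ℓ E₀ (pL L) (σ d))) τ), mob_sub (fun τ => F c d τ -
        F (pr ℓ E₀ (pL L) c) d τ), h2]
    rw [h2, h3, h4]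
    push_cast
    rfl
  · intro L _ hL
    refine Finset.sum_eq_zero fun σ hσ => ?_
    obtain ⟨_, hσE, hσ1⟩ := Finset.mem_filter.1 hσ
    have hp : pL L = ⊥ := by
      by_contra hp
      apply hL
      refine Finset.mem_filter.2 ⟨Finset.mem_univ _, hp, ?_⟩
      intro h1
      apply hp
      rw [← el_map hσ1, h1]
      exact (mpb V₀ σ 1 ⊥ ⊥).2.2.2.2.2.2.2.2.1
    rw [hR, hp, if_neg (fun h => h rfl), if_neg (fun h => hbot h.1), if_neg (fun h => hbot h.1),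
      if_neg (fun h => hbot h.1)]
    simp

end Pool.Agent.PP.SE.H56
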